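import Pool.Agent.Lib.TWK.LemN

/-!
# LEMMA B of note 3233: sizes from jets

`V` a vector space over `k = k^alg` with an injective `p`-semilinear map `F`, generated by a finite
dimensional subspace; `Q` a vector space with a bijective `p`-semilinear map `G` and a size `gap`;
`jet n : V → Q` linear (`n : ℕ`), `jet (p n) (F w) = G (jet n w)`, `jet n (F w) = 0` for `n` prime to
`p`, `gap (jet n w) → 0`, infinitely many `jet n w ≠ 0` for `w ≠ 0` (structure `JetD`).
* `exists_finset_inf`: finitely many members of a family of stable saturated subspaces with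
  intersection `0` have intersection `0`;
* `JetD.fin`: finite dimensional balls (LEMMA B);
* `JetD.szN`: the sizes `nrm x w = max_(n ≥ x) gap (jet n w)` satisfy `SzN`;
* `uni_of_nil`: nilpotent families of operators are unipotent;
* `lemN_jets`: LEMMA N for jets.
-/

set_option autoImplicit false

open Module

namespace Pool.Agent.TWK

universe u v

variable {k V : Type u} [Field k] [AddCommGroup V] [Module k V] {p : ℕ} {F : V →+ V}

/-! ### Families of saturated subspaces -/

section Fam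

variable [hp : Fact p.Prime] [IsAlgClosed k]

omit [IsAlgClosed k] in
theorem stab_iInf {ι : Sort*} {K : ι → Submodule k V} (h : ∀ i, Stab F (K i)) :
    Stab F (⨅ i, K i) := by
  intro w hw
  rw [Submodule.mem_iInf] at hw ⊢
  exact fun i => h i _ (hw i)

omit [IsAlgClosed k] in
theorem sat_iInf {ι : Sort*} {K : ι → Submodule k V} (h : ∀ i, Sat F (K i)) :
    Sat F (⨅ i, K i) := by
  intro a w hw
  rw [Submodule.mem_iInf] at hw ⊢
  exact fun i => h i a w (hw i)

/-- **Finitely many members suffice.** -/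
theorem exists_finset_inf (hF : Semi p k F) {T₀ : Submodule k V} [FiniteDimensional k T₀]
    (hT₀ : cl F T₀ = ⊤) {ι : Type*} (K : ι → Submodule k V) (hst : ∀ i, Stab F (K i))
    (hsat : ∀ i, Sat F (K i)) (hbot : ∀ w : V, (∀ i, w ∈ K i) → w = 0) :
    ∃ t : Finset ι, ∀ w : V, (∀ i ∈ t, w ∈ K i) → w = 0 := by
  classical
  by_contra hno
  push Not at hno
  -- the next index
  have h1 : ∀ t : Finset ι, ∃ i : ι, ∃ w : V, (∀ j ∈ t, w ∈ K j) ∧ w ∉ K i := by
    intro t
    obtain ⟨w, hw, hw0⟩ := hno t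
    by_contra h2
    push Not at h2
    exact hw0 (hbot w fun i => h2 i w hw)
  choose nx w hw hw' using h1
  set t : ℕ → Finset ι := fun n => Nat.rec ∅ (fun _ s => insert (nx s) s) n with ht
  have ht1 : ∀ n, t (n + 1) = insert (nx (t n)) (t n) := fun _ => rfl
  have htm : Monotone t := monotone_nat_of_le_succ fun n => by
    rw [ht1]
    exact Finset.subset_insert _ _
  set b := finrank k T₀ with hb
  set Kt : ℕ → Submodule k V := fun n => ⨅ i : {i // i ∈ t n}, K i with hKt
  have hmem : ∀ n y, y ∈ Kt n ↔ ∀ j ∈ t n, y ∈ K j := by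
    intro n y
    rw [hKt]
    simp only [Submodule.mem_iInf]
    exact ⟨fun h j hj => h ⟨j, hj⟩, fun h i => h i i.2⟩
  have hlt : ∀ n, ¬ Kt n ≤ Kt (n + 1) := by
    intro n h2
    have h3 : w (t n) ∈ Kt n := (hmem n _).2 (hw (t n))
    have h4 := (hmem (n + 1) _).1 (h2 h3) (nx (t n)) (by
      rw [ht1]
      exact Finset.mem_insert_self _ _)
    exact hw' (t n) h4
  have hle : ∀ {n m : ℕ}, n ≤ m → Kt m ≤ Kt n := by
    intro n m hnm y hy
    exact (hmem n y).2 fun j hj => (hmem m y).1 hy j (htm hnm hj)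
  obtain ⟨i, hi, heq⟩ := chain hF hT₀ (b := b) hb.ge (fun j => Kt (b + 1 - j))
    (fun j j' hj => hle (Nat.sub_le_sub_left hj _))
    (fun j => stab_iInf fun i => hst i) (fun j _ => sat_iInf fun i => hsat i) (by
      intro j hj htop
      have htop' : Kt (b + 1 - j) = ⊤ := htop
      refine hlt (b - j) ?_
      have e1 : b - j + 1 = b + 1 - j := by omega
      rw [e1, htop']
      exact le_top)
  have heq' : Kt (b + 1 - i) = Kt (b + 1 - (i + 1)) := heq
  refine hlt (b - i) ?_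
  have e1 : b - i + 1 = b + 1 - i := by omega
  have e2 : b + 1 - (i + 1) = b - i := by omega
  rw [e1, heq', e2]

end Fam

/-! ### Jets -/

/-- Jets with sizes. -/
structure JetD (p : ℕ) (k : Type u) {V : Type u} {Q : Type v} [Field k] [AddCommGroup V]
    [Module k V] [AddCommGroup Q] [Module k Q] (F : V →+ V) (G : Q →+ Q) (gap : Q → ℝ)
    (jet : ℕ → V →ₗ[k] Q) : Prop where
  add : ∀ q r, gap (q + r) ≤ max (gap q) (gap r)
  smul : ∀ (c : k) q, gap (c • q) ≤ gap q
  zero : gap 0 = 0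
  pos : ∀ q, q ≠ 0 → 0 < gap q
  Gsmul : ∀ (c : k) (q : Q), G (c • q) = c ^ p • G q
  Gbij : Function.Bijective G
  frob : ∀ q, gap (G q) = p * gap q
  jF : ∀ n w, jet (p * n) (F w) = G (jet n w)
  jF0 : ∀ n w, ¬ p ∣ n → jet n (F w) = 0
  lim : ∀ w (ε : ℝ), 0 < ε → ∃ N, ∀ n ≥ N, gap (jet n w) < ε
  inf : ∀ w, w ≠ 0 → ∀ N, ∃ n ≥ N, jet n w ≠ 0

/-- The size. -/
noncomputable def szj {Q : Type v} [AddCommGroup Q] [Module k Q] (gap : Q → ℝ)
    (jet : ℕ → V →ₗ[k] Q) (x : ℕ) (w : V) : ℝ := ⨆ n : ℕ, gap (jet (x + n) w)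

namespace JetD

variable {Q : Type v} [AddCommGroup Q] [Module k Q] {G : Q →+ Q} {gap : Q → ℝ}
  {jet : ℕ → V →ₗ[k] Q} (h : JetD p k F G gap jet)

include h

theorem nonneg (q : Q) : 0 ≤ gap q := by
  by_cases hq : q = 0
  · rw [hq, h.zero]
  · exact (h.pos q hq).le

theorem bdd (x : ℕ) (w : V) : BddAbove (Set.range fun n : ℕ => gap (jet (x + n) w)) := by
  obtain ⟨N, hN⟩ := h.lim w 1 one_pos
  obtain ⟨n₀, -, hn₀⟩ := (Finset.range (N + 1)).exists_max_image (fun n => gap (jet n w))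
    ⟨0, Finset.mem_range.2 (Nat.succ_pos N)⟩
  refine ⟨max 1 (gap (jet n₀ w)), ?_⟩
  rintro _ ⟨n, rfl⟩
  rcases Nat.lt_or_ge (x + n) (N + 1) with h1 | h1
  · exact (hn₀ _ (Finset.mem_range.2 h1)).trans (le_max_right _ _)
  · exact (hN (x + n) (by omega)).le.trans (le_max_left _ _)

theorem le_szj {x n : ℕ} (hxn : x ≤ n) (w : V) : gap (jet n w) ≤ szj gap jet x w := by
  obtain ⟨m, rfl⟩ := Nat.exists_eq_add_of_le hxn
  exact le_ciSup (h.bdd x w) m

omit h in
theorem szj_le {x : ℕ} {w : V} {c : ℝ} (hc : ∀ n, x ≤ n → gap (jet n w) ≤ c) :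
    szj gap jet x w ≤ c :=
  ciSup_le fun n => hc (x + n) (Nat.le_add_right x n)

theorem szj_nonneg (x : ℕ) (w : V) : 0 ≤ szj gap jet x w :=
  (h.nonneg _).trans (h.le_szj le_rfl w)

/-- The inverse of `G`. -/
noncomputable def inv : Q →+ Q := (AddEquiv.ofBijective G h.Gbij).symm.toAddMonoidHom

theorem G_inv (q : Q) : G (h.inv q) = q := (AddEquiv.ofBijective G h.Gbij).apply_symm_apply q

theorem inv_G (q : Q) : h.inv (G q) = q := (AddEquiv.ofBijective G h.Gbij).symm_apply_apply q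

theorem inv_smul (c : k) (q : Q) : h.inv (c ^ p • q) = c • h.inv q := by
  refine h.Gbij.1 ?_
  rw [h.G_inv, h.Gsmul, h.G_inv]

theorem inv_it_add (m : ℕ) (q r : Q) : h.inv^[m] (q + r) = h.inv^[m] q + h.inv^[m] r := by
  induction m generalizing q r with
  | zero => rfl
  | succ m ih =>
    rw [Function.iterate_succ_apply, Function.iterate_succ_apply, Function.iterate_succ_apply,
      map_add, ih]

theorem inv_it_smul (m : ℕ) (c : k) (q : Q) : h.inv^[m] (c ^ p ^ m • q) = c • h.inv^[m] q := by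
  induction m generalizing q with
  | zero => rw [pow_zero, pow_one]; rfl
  | succ m ih =>
    rw [Function.iterate_succ_apply, Function.iterate_succ_apply, pow_succ, pow_mul, h.inv_smul, ih]

theorem inv_it_zero (m : ℕ) : h.inv^[m] 0 = 0 := by
  induction m with
  | zero => rfl
  | succ m ih => rw [Function.iterate_succ_apply, map_zero, ih]

theorem inv_it_ne (m : ℕ) {q : Q} (hq : q ≠ 0) : h.inv^[m] q ≠ 0 := by
  induction m generalizing q with
  | zero => exact hq
  | succ m ih =>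
    rw [Function.iterate_succ_apply]
    refine ih fun h1 => hq ?_
    rw [← h.G_inv q, h1, map_zero]

theorem gap_inv_it (m : ℕ) (q : Q) : (p : ℝ) ^ m * gap (h.inv^[m] q) = gap q := by
  induction m generalizing q with
  | zero => rw [pow_zero, one_mul]; rfl
  | succ m ih =>
    rw [Function.iterate_succ_apply, pow_succ, mul_assoc, mul_left_comm, ih, ← h.frob, h.G_inv]

variable [hp : Fact p.Prime] [IsAlgClosed k]

/-- The kernel of a functional. -/
noncomputable def ker (n : ℕ) (lam : Q →ₗ[k] k) : Submodule k V where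
  carrier := {w | ∀ m, lam (h.inv^[m] (jet (p ^ m * n) w)) = 0}
  add_mem' := by
    intro a b ha hb m
    rw [map_add, h.inv_it_add, map_add, ha m, hb m, add_zero]
  zero_mem' := by
    intro m
    rw [map_zero, h.inv_it_zero, map_zero]
  smul_mem' := by
    intro c a ha m
    obtain ⟨d, rfl⟩ := IsAlgClosed.exists_pow_nat_eq c (pow_pos hp.out.pos m)
    rw [map_smul, h.inv_it_smul, map_smul, ha m, smul_zero]

theorem mem_ker {n : ℕ} {lam : Q →ₗ[k] k} {w : V} :
    w ∈ h.ker n lam ↔ ∀ m, lam (h.inv^[m] (jet (p ^ m * n) w)) = 0 := Iff.rfl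

omit hp [IsAlgClosed k] in
theorem jet_succ (n m : ℕ) (w : V) : jet (p ^ (m + 1) * n) (F w) = G (jet (p ^ m * n) w) := by
  rw [pow_succ', mul_assoc, h.jF]

theorem stab_ker {n : ℕ} (hn : ¬ p ∣ n) (lam : Q →ₗ[k] k) : Stab F (h.ker n lam) := by
  intro w hw m
  rcases m with - | m
  · rw [pow_zero, one_mul, h.jF0 n w hn]
    exact map_zero lam
  · rw [h.jet_succ, Function.iterate_succ_apply, h.inv_G]
    exact hw m

theorem sat_ker {n : ℕ} (hn : ¬ p ∣ n) (lam : Q →ₗ[k] k) : Sat F (h.ker n lam) := by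
  intro a w hw
  by_cases ha : a = 0
  · intro m
    rw [ha, zero_smul, sub_zero] at hw
    have h1 := hw (m + 1)
    rwa [h.jet_succ, Function.iterate_succ_apply, h.inv_G] at h1
  have key : ∀ m, lam (h.inv^[m] (jet (p ^ m * n) (a • w))) = 0 →
      lam (h.inv^[m] (jet (p ^ m * n) w)) = 0 := by
    intro m hm
    obtain ⟨d, hd⟩ := IsAlgClosed.exists_pow_nat_eq a (pow_pos hp.out.pos m)
    rw [map_smul, ← hd, h.inv_it_smul, map_smul, smul_eq_mul] at hm
    rcases mul_eq_zero.1 hm with h1 | h1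
    · exfalso
      refine ha ?_
      rw [← hd, h1, zero_pow (pow_pos hp.out.pos m).ne']
    · exact h1
  intro m
  have e1 : ∀ m, lam (h.inv^[m] (jet (p ^ m * n) (F w))) =
      lam (h.inv^[m] (jet (p ^ m * n) (a • w))) := by
    intro m
    have h1 := hw m
    have h2 : F w = (F w - a • w) + a • w := by abel
    conv_lhs => rw [h2, map_add, h.inv_it_add, map_add, h1, zero_add]
  induction m with
  | zero =>
    refine key 0 ?_
    rw [← e1, pow_zero, one_mul, h.jF0 n w hn]
    exact map_zero lam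
  | succ m ih =>
    refine key (m + 1) ?_
    rw [← e1, h.jet_succ, Function.iterate_succ_apply, h.inv_G]
    exact ih

/-- The coordinate of a functional. -/
noncomputable def co [CharP k p] (n m : ℕ) (lam : Q →ₗ[k] k) : V →ₗ[k] k where
  toFun w := lam (h.inv^[m] (jet (p ^ m * n) w)) ^ p ^ m
  map_add' a b := by
    rw [map_add, h.inv_it_add, map_add, add_pow_char_pow]
  map_smul' c a := by
    obtain ⟨d, rfl⟩ := IsAlgClosed.exists_pow_nat_eq c (pow_pos hp.out.pos m)
    rw [map_smul, h.inv_it_smul, map_smul, smul_eq_mul, mul_pow, RingHom.id_apply, smul_eq_mul]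

/-- The open balls of `Q`. -/
def qball (c : ℝ) (hc : 0 < c) : Submodule k Q where
  carrier := {q | gap q < c}
  add_mem' := fun ha hb => (h.add _ _).trans_lt (max_lt ha hb)
  zero_mem' := by
    change gap 0 < c
    rw [h.zero]
    exact hc
  smul_mem' := fun a _ hw => (h.smul a _).trans_lt hw

/-- **LEMMA B.** -/
theorem fin [CharP k p] (hF : Semi p k F) {T₀ : Submodule k V} [FiniteDimensional k T₀]
    (hT₀ : cl F T₀ = ⊤) (x : ℕ) (c : ℝ) (B : Submodule k V)
    (hB : ∀ w ∈ B, szj gap jet x w ≤ c) : FiniteDimensional k B := by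
  classical
  have hp1 : 1 < p := hp.out.one_lt
  set ι := {i : ℕ × (Q →ₗ[k] k) × ℝ // ¬ p ∣ i.1 ∧ 0 < i.2.2 ∧ ∀ q, gap q < i.2.2 → i.2.1 q = 0}
    with hι
  obtain ⟨t, ht⟩ := exists_finset_inf hF hT₀ (fun i : ι => h.ker i.1.1 i.1.2.1)
    (fun i => h.stab_ker i.2.1 _) (fun i => h.sat_ker i.2.1 _) (by
      intro w hw
      by_contra hw0
      obtain ⟨N, hN1, hN⟩ := h.inf w hw0 1
      obtain ⟨m, n, hn, rfl⟩ : ∃ m n : ℕ, ¬ p ∣ n ∧ N = p ^ m * n :=
        Nat.exists_eq_pow_mul_and_not_dvd (by omega) p hp.out.ne_one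
      set q := h.inv^[m] (jet (p ^ m * n) w) with hq
      have hq0 : q ≠ 0 := h.inv_it_ne m hN
      have hgq := h.pos q hq0
      have hnot : q ∉ h.qball (gap q) hgq := fun h1 => lt_irrefl (gap q) h1
      obtain ⟨lam, hlam, hle⟩ := Submodule.exists_le_ker_of_notMem hnot
      have h2 := hw ⟨(n, lam, gap q), hn, hgq, fun r hr => hle hr⟩ m
      exact hlam h2)
  -- the bound
  have hbd : ∀ i : ι, ∃ M : ℕ, ∀ m, M ≤ m → x ≤ p ^ m * i.1.1 ∧ c < (p : ℝ) ^ m * i.1.2.2 := by
    intro i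
    have hn : 0 < i.1.1 := Nat.pos_of_ne_zero fun h1 => i.2.1 (h1 ▸ dvd_zero p)
    have hρ := i.2.2.1
    obtain ⟨M, hM⟩ := exists_nat_gt (c / i.1.2.2)
    refine ⟨max x M, fun m hm => ⟨?_, ?_⟩⟩
    · have h1 : m < p ^ m := Nat.lt_pow_self hp1
      have h2 : p ^ m ≤ p ^ m * i.1.1 := Nat.le_mul_of_pos_right _ hn
      have h3 := (le_max_left x M).trans hm
      omega
    · have h1 : m < p ^ m := Nat.lt_pow_self hp1
      have h2 : (M : ℝ) ≤ (p : ℝ) ^ m := by
        exact_mod_cast ((le_max_right x M).trans hm).trans h1.le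
      rw [← div_lt_iff₀ hρ]
      exact lt_of_lt_of_le hM h2
  choose M hM using hbd
  set m₀ := t.sup M with hm₀
  set Φ : V →ₗ[k] ({i // i ∈ t} × Fin m₀ → k) :=
    LinearMap.pi fun im => h.co im.1.1.1.1 im.2 im.1.1.1.2.1 with hΦ
  refine FiniteDimensional.of_injective (Φ.comp B.subtype) ?_
  rw [injective_iff_map_eq_zero]
  rintro ⟨w, hw⟩ h1
  have h2 : ∀ i ∈ t, ∀ m < m₀, h.co i.1.1 m i.1.2.1 w = 0 := fun i hi m hm =>
    congrFun h1 (⟨i, hi⟩, ⟨m, hm⟩)
  have h3 : w = 0 := by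
    refine ht w fun i hi m => ?_
    rcases Nat.lt_or_ge m m₀ with hm | hm
    · exact pow_eq_zero_iff (pow_pos hp.out.pos m).ne' |>.1 (h2 i hi m hm)
    · obtain ⟨h4, h5⟩ := hM i m ((Finset.le_sup (f := M) hi).trans hm)
      refine i.2.2.2 _ ?_
      have h6 := h.gap_inv_it m (jet (p ^ m * i.1.1) w)
      have h7 := (h.le_szj h4 w).trans (hB w hw)
      have h8 : (0 : ℝ) < (p : ℝ) ^ m := by
        have : (0 : ℝ) < p := by exact_mod_cast hp.out.pos
        positivity
      have h9 : (p : ℝ) ^ m * gap (h.inv^[m] (jet (p ^ m * i.1.1) w)) < (p : ℝ) ^ m * i.1.2.2 := by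
        rw [h6]
        exact lt_of_le_of_lt h7 h5
      exact lt_of_mul_lt_mul_left h9 h8.le
  exact Subtype.ext h3

/-- **Sizes from jets.** -/
theorem szN [CharP k p] (hF : Semi p k F) {T₀ : Submodule k V} [FiniteDimensional k T₀]
    (hT₀ : cl F T₀ = ⊤) : SzN p k F (szj gap jet) where
  add x v w := szj_le fun n hn => by
    rw [map_add]
    exact (h.add _ _).trans (max_le_max (h.le_szj hn v) (h.le_szj hn w))
  smul x c w := szj_le fun n hn => by
    rw [map_smul]
    exact (h.smul c _).trans (h.le_szj hn w)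
  zero x := by
    refine le_antisymm (szj_le fun n _ => ?_) (h.szj_nonneg x 0)
    rw [map_zero, h.zero]
  anti x y w hxy := szj_le fun n hn => h.le_szj (hxy.trans hn) w
  pos x w hw := by
    obtain ⟨n, hn, h1⟩ := h.inf w hw x
    exact lt_of_lt_of_le (h.pos _ h1) (h.le_szj hn w)
  frob x w := by
    have hp0 : (0 : ℝ) < p := by exact_mod_cast hp.out.pos
    have hpp := hp.out.pos
    refine le_antisymm (szj_le fun n hn => ?_) ?_
    · by_cases hd : p ∣ n
      · obtain ⟨m, rfl⟩ := hd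
        rw [h.jF, h.frob]
        refine mul_le_mul_of_nonneg_left (h.le_szj ?_ w) hp0.le
        rw [cdv, Nat.div_le_iff_le_mul_add_pred hpp]
        omega
      · rw [h.jF0 n w hd, h.zero]
        exact mul_nonneg hp0.le (h.szj_nonneg _ w)
    · rw [← le_div_iff₀' hp0]
      refine szj_le fun m hm => ?_
      rw [le_div_iff₀' hp0, ← h.frob, ← h.jF]
      refine h.le_szj ?_ (F w)
      rw [cdv, Nat.div_le_iff_le_mul_add_pred hpp] at hm
      omega
  fin x c B hB := h.fin hF hT₀ x c B hB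

end JetD

/-! ### Nilpotent families -/

/-- Nilpotent families are unipotent. -/
theorem uni_of_nil {D : Set (V →ₗ[k] V)} {m : ℕ}
    (hnil : ∀ l : List (Module.End k V), l.length = m → (∀ δ ∈ l, δ ∈ D) → l.prod = 0)
    (U W : Submodule k V) (_hUW : U ≤ W) (hU : ∀ δ ∈ D, ∀ w ∈ U, δ w ∈ U)
    (_hW : ∀ δ ∈ D, ∀ w ∈ W, δ w ∈ W) (hle : W ≤ U ⊔ opS D W) : W ≤ U := by
  set P : ℕ → Submodule k V := fun j => Submodule.span k
    {y | ∃ l : List (Module.End k V), l.length = j ∧ (∀ δ ∈ l, δ ∈ D) ∧ ∃ w ∈ W, l.prod w = y}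
    with hP
  have hlU : ∀ l : List (Module.End k V), (∀ δ ∈ l, δ ∈ D) → ∀ u ∈ U, l.prod u ∈ U := by
    intro l
    induction l with
    | nil => exact fun _ u hu => hu
    | cons δ l ih =>
      intro hl u hu
      rw [List.prod_cons]
      exact hU δ (hl δ List.mem_cons_self) _
        (ih (fun δ' hδ' => hl δ' (List.mem_cons_of_mem _ hδ')) u hu)
  have key : ∀ j, W ≤ U ⊔ P j := by
    intro j
    induction j with
    | zero =>
      intro w hw
      refine (le_sup_right : P 0 ≤ U ⊔ P 0) (Submodule.subset_span ⟨[], rfl, ?_, w, hw, rfl⟩)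
      intro δ hδ
      exact absurd hδ List.not_mem_nil
    | succ j ih =>
      refine ih.trans (sup_le le_sup_left ?_)
      rw [hP]
      simp only
      rw [Submodule.span_le]
      rintro _ ⟨l, hl, hlD, w, hw, rfl⟩
      obtain ⟨a, ha, y, hy, rfl⟩ := Submodule.mem_sup.1 (hle hw)
      rw [map_add]
      refine add_mem ((le_sup_left : U ≤ _) (hlU l hlD a ha)) ?_
      refine (le_sup_right : _ ≤ U ⊔ _) ?_
      rw [opS] at hy
      clear hw
      induction hy using Submodule.span_induction with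
      | mem y hy =>
        obtain ⟨δ, hδ, w', hw', rfl⟩ := hy
        refine Submodule.subset_span ⟨l ++ [δ], ?_, ?_, w', hw', ?_⟩
        · rw [List.length_append, hl, List.length_singleton]
        · intro δ' hδ'
          rcases List.mem_append.1 hδ' with h1 | h1
          · exact hlD δ' h1
          · rw [List.mem_singleton.1 h1]
            exact hδ
        · rw [List.prod_append, List.prod_singleton]
          rfl
      | zero => rw [map_zero]; exact zero_mem _
      | add y z _ _ h1 h2 => rw [map_add]; exact add_mem h1 h2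
      | smul c y _ h1 => rw [map_smul]; exact Submodule.smul_mem _ _ h1
  refine (key m).trans (sup_le le_rfl ?_)
  rw [hP]
  simp only
  rw [Submodule.span_le]
  rintro _ ⟨l, hl, hlD, w, -, rfl⟩
  rw [hnil l hl hlD]
  exact zero_mem _

/-- **LEMMA N for jets.** -/
theorem lemN_jets [hp : Fact p.Prime] [IsAlgClosed k] [CharP k p] {Q : Type v} [AddCommGroup Q]
    [Module k Q] {G : Q →+ Q} {gap : Q → ℝ} {jet : ℕ → V →ₗ[k] Q} (h : JetD p k F G gap jet)
    (hF : Semi p k F) {T₀ : Submodule k V} [FiniteDimensional k T₀] (hT₀ : cl F T₀ = ⊤)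
    (hV : ∃ w : V, w ≠ 0) {D : Set (V →ₗ[k] V)} {A n₁ : ℕ}
    (hD : ∀ δ ∈ D, ∀ w n, n₁ ≤ n → ∃ a ≤ A, gap (jet n (δ w)) ≤ gap (jet (n - a) w))
    (hDF : ∀ δ ∈ D, ∀ w, ∃ δ' ∈ D, δ (F w) = F (δ' w)) {m : ℕ}
    (hnil : ∀ l : List (Module.End k V), l.length = m → (∀ δ ∈ l, δ ∈ D) → l.prod = 0) :
    ∃ S : Submodule k V, Stab F S ∧ Sat F S ∧ S ≠ ⊤ ∧ ∀ δ ∈ D, ∀ w, δ w ∈ S := by
  refine lemN (h.szN hF hT₀) hF hT₀ hV (D := D) (A := A) (n₁ := n₁) ?_ hDF (uni_of_nil hnil)
  intro δ hδ x w hx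
  refine JetD.szj_le fun n hn => ?_
  obtain ⟨a, ha, h1⟩ := hD δ hδ w n (by omega)
  exact h1.trans (h.le_szj (by omega) w)

end Pool.Agent.TWK
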