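import Pool.Agent.Lib.TWK.Semi

/-!
# LEMMA N of note 3233: infinite shape kills ties

`V` a vector space over `k = k^alg` with an injective `p`-semilinear map `F`, generated by a finite
dimensional subspace. `SzN p F nrm`: sizes `nrm x w`, `x : ℕ`,
* ultrametric, `k`-invariant, decreasing in `x`, `> 0` for `w ≠ 0`,
* `nrm x (F w) = p * nrm (cdv p x) w`, `cdv p x` the upper integral part of `x / p`,
* finite dimensional balls.
Results:
* `SzN.sat` (LEMMA 0): the stable subspace generated by `{w | nrm x w < c}` is saturated;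
* `lemN` (LEMMA N): let `D` be a set of linear operators with `nrm (x + A) (δ w) ≤ nrm x w` for
  `x ≥ n₁`, `δ (F w) = F (δ' w)`, and `D W + U ≠ W` for all `D`-stable `U < W`. Then there is a stable
  saturated subspace `S ≠ V` with `δ w ∈ S` for all `δ` in `D`, `w` in `V`.
-/

set_option autoImplicit false

open Module

namespace Pool.Agent.TWK

universe u

variable {k V : Type u} [Field k] [AddCommGroup V] [Module k V] {p : ℕ} {F : V →+ V}

/-- The upper integral part of `x / p`. -/
def cdv (p x : ℕ) : ℕ := (x + p - 1) / p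

/-- Sizes. -/
structure SzN (p : ℕ) (k : Type u) {V : Type u} [Field k] [AddCommGroup V] [Module k V]
    (F : V →+ V) (nrm : ℕ → V → ℝ) : Prop where
  add : ∀ x v w, nrm x (v + w) ≤ max (nrm x v) (nrm x w)
  smul : ∀ x (c : k) w, nrm x (c • w) ≤ nrm x w
  zero : ∀ x, nrm x 0 = 0
  anti : ∀ x y w, x ≤ y → nrm y w ≤ nrm x w
  pos : ∀ x w, w ≠ 0 → 0 < nrm x w
  frob : ∀ x w, nrm x (F w) = p * nrm (cdv p x) w
  fin : ∀ x (c : ℝ) (B : Submodule k V), (∀ w ∈ B, nrm x w ≤ c) → FiniteDimensional k B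

namespace SzN

variable {nrm : ℕ → V → ℝ} (h : SzN p k F nrm)

include h

theorem nonneg (x : ℕ) (w : V) : 0 ≤ nrm x w := by
  by_cases hw : w = 0
  · rw [hw, h.zero]
  · exact (h.pos x w hw).le

theorem neg (x : ℕ) (w : V) : nrm x (-w) ≤ nrm x w := by
  have h1 := h.smul x (-1) w
  rwa [neg_smul, one_smul] at h1

theorem sub (x : ℕ) (v w : V) : nrm x (v - w) ≤ max (nrm x v) (nrm x w) := by
  rw [sub_eq_add_neg]
  exact (h.add x v (-w)).trans (max_le_max le_rfl (h.neg x w))

/-- The ball `≤ c`. -/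
def ball (x : ℕ) (c : ℝ) (hc : 0 ≤ c) : Submodule k V where
  carrier := {w | nrm x w ≤ c}
  add_mem' := fun ha hb => (h.add x _ _).trans (max_le ha hb)
  zero_mem' := by
    change nrm x 0 ≤ c
    rw [h.zero]
    exact hc
  smul_mem' := fun a _ hw => (h.smul x a _).trans hw

/-- The ball `< c`. -/
def oball (x : ℕ) (c : ℝ) (hc : 0 < c) : Submodule k V where
  carrier := {w | nrm x w < c}
  add_mem' := fun ha hb => (h.add x _ _).trans_lt (max_lt ha hb)
  zero_mem' := by
    change nrm x 0 < c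
    rw [h.zero]
    exact hc
  smul_mem' := fun a _ hw => (h.smul x a _).trans_lt hw

theorem finball (x : ℕ) (c : ℝ) (hc : 0 ≤ c) : FiniteDimensional k (h.ball x c hc) :=
  h.fin x c _ fun _ hw => hw

/-- The maximal size on a finite dimensional subspace. -/
theorem exists_max (x : ℕ) (B : Submodule k V) [FiniteDimensional k B] :
    ∃ e ∈ B, ∀ w ∈ B, nrm x w ≤ nrm x e := by
  classical
  obtain ⟨s, hs⟩ : ∃ s : Finset V, Submodule.span k (s : Set V) = B :=
    (Submodule.fg_iff_finiteDimensional B).2 inferInstance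
  obtain ⟨e, he, hmax⟩ := (insert 0 s).exists_max_image (nrm x) ⟨0, Finset.mem_insert_self 0 s⟩
  have heB : e ∈ B := by
    rcases Finset.mem_insert.1 he with rfl | h1
    · exact zero_mem _
    · rw [← hs]
      exact Submodule.subset_span h1
  refine ⟨e, heB, fun w hw => ?_⟩
  rw [← hs] at hw
  induction hw using Submodule.span_induction with
  | mem y hy => exact hmax y (Finset.mem_insert_of_mem hy)
  | zero => exact hmax 0 (Finset.mem_insert_self 0 s)
  | add a b _ _ h1 h2 => exact (h.add x a b).trans (max_le h1 h2)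
  | smul c a _ h1 => exact (h.smul x c a).trans h1

variable [hp : Fact p.Prime]

omit h in
theorem cdv_le (x : ℕ) : cdv p x ≤ x := by
  have hp2 := hp.out.two_le
  rw [cdv, Nat.div_le_iff_le_mul_add_pred (by omega)]
  have h1 : x ≤ p * x := Nat.le_mul_of_pos_left x (by omega)
  omega

omit h hp in
theorem cdv_mono {x y : ℕ} (hxy : x ≤ y) : cdv p x ≤ cdv p y :=
  Nat.div_le_div_right (by omega)

theorem frob_ge (x : ℕ) (w : V) : p * nrm x w ≤ nrm x (F w) := by
  rw [h.frob]
  exact mul_le_mul_of_nonneg_left (h.anti _ _ _ (cdv_le x)) (Nat.cast_nonneg p)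

variable [IsAlgClosed k]

/-- **LEMMA 0.** -/
theorem sat (hF : Semi p k F) (x : ℕ) {c : ℝ} (hc : 0 < c) : Sat F (cl F (h.oball x c hc)) := by
  have hp0 : (1 : ℝ) < p := by exact_mod_cast hp.out.one_lt
  -- the case of the ball
  have h0 : ∀ (a : k) (w : V), F w - a • w ∈ h.oball x c hc → w ∈ h.oball x c hc := by
    intro a w hw
    change nrm x w < c
    have hw' : nrm x (F w - a • w) < c := hw
    by_cases hw0 : w = 0
    · rw [hw0, h.zero]
      exact hc
    have hpos := h.pos x w hw0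
    have h1 : nrm x (F w) ≤ max (nrm x (F w - a • w)) (nrm x (a • w)) := by
      have := h.add x (F w - a • w) (a • w)
      rwa [sub_add_cancel] at this
    have h2 := h.frob_ge x w
    have h3 := h.smul x a w
    rcases le_max_iff.1 h1 with h4 | h4
    · nlinarith
    · nlinarith
  have key : ∀ (n : ℕ) (a : k) (w : V), F w - a • w ∈ lev hF (h.oball x c hc) n →
      w ∈ cl F (h.oball x c hc) := by
    intro n
    induction n with
    | zero => exact fun a w hw => le_cl (h0 a w hw)
    | succ n ih =>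
      intro a w hw
      obtain ⟨e, he, y, hy, h1⟩ := mem_lev_succ.1 hw
      have h2 : F (w - y) - a • (w - y) ∈ lev hF (h.oball x c hc) n := by
        have e1 : F (w - y) - a • (w - y) = e + a • y := by
          rw [map_sub, smul_sub]
          have e2 : F w = e + F y + a • w := by rw [← h1]; abel
          rw [e2]
          abel
        rw [e1]
        refine add_mem ?_ (Submodule.smul_mem _ _ hy)
        exact lev_mono hF (Nat.zero_le n) he
      have h3 := ih a (w - y) h2
      have h4 : y ∈ cl F (h.oball x c hc) := lev_le_cl hF n hy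
      have h5 := add_mem h3 h4
      rwa [sub_add_cancel] at h5
  intro a w hw
  obtain ⟨n, hn⟩ := exists_lev hF hw
  exact key n a w hn

end SzN

/-- The elements `δ w`. -/
def opS (D : Set (V →ₗ[k] V)) (W : Submodule k V) : Submodule k V :=
  Submodule.span k {y | ∃ δ ∈ D, ∃ w ∈ W, δ w = y}

variable [hp : Fact p.Prime] [IsAlgClosed k]

/-- **LEMMA N.** -/
theorem lemN {nrm : ℕ → V → ℝ} (h : SzN p k F nrm) (hF : Semi p k F) {T₀ : Submodule k V}
    [FiniteDimensional k T₀] (hT₀ : cl F T₀ = ⊤) (hV : ∃ w : V, w ≠ 0)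
    {D : Set (V →ₗ[k] V)} {A n₁ : ℕ}
    (hD : ∀ δ ∈ D, ∀ x w, n₁ ≤ x → nrm (x + A) (δ w) ≤ nrm x w)
    (hDF : ∀ δ ∈ D, ∀ w, ∃ δ' ∈ D, δ (F w) = F (δ' w))
    (huni : ∀ U W : Submodule k V, U ≤ W → (∀ δ ∈ D, ∀ w ∈ U, δ w ∈ U) →
      (∀ δ ∈ D, ∀ w ∈ W, δ w ∈ W) → W ≤ U ⊔ opS D W → W ≤ U) :
    ∃ S : Submodule k V, Stab F S ∧ Sat F S ∧ S ≠ ⊤ ∧ ∀ δ ∈ D, ∀ w, δ w ∈ S := by
  classical
  have hp1 : (1 : ℝ) < p := by exact_mod_cast hp.out.one_lt
  have hp2 := hp.out.two_le
  set b := finrank k T₀ with hb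
  -- the choice of `x`
  set M := (b + 1) * A + n₁ + A with hM
  set x := p * M with hx
  set x₀ := cdv p (x + A) with hx₀
  have hx₀1 : M ≤ x₀ := by
    rw [hx₀, cdv, Nat.le_div_iff_mul_le (by omega), hx, mul_comm]
    omega
  have hx₀2 : x₀ ≤ M + A := by
    have e1 : A ≤ p * A := Nat.le_mul_of_pos_left A (by omega)
    have e2 : p * (M + A) = x + p * A := Nat.mul_add p M A
    rw [hx₀, cdv, Nat.div_le_iff_le_mul_add_pred (by omega), e2]
    clear_value x
    omega
  have hxM : 2 * M ≤ x := Nat.mul_le_mul_right M hp2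
  have hxn : n₁ ≤ x := by
    have e1 : n₁ ≤ M := by
      rw [hM]
      omega
    clear_value x M
    omega
  have hx₀3 : ∀ a ≤ b, x₀ + a * A ≤ x := by
    intro a ha
    have h1 : a * A ≤ b * A := Nat.mul_le_mul_right A ha
    have h2 : 2 * M ≤ x := Nat.mul_le_mul_right M hp2
    have h3 : (b + 1) * A = b * A + A := by ring
    omega
  -- the generating ball of minimal dimension
  obtain ⟨e₀, -, he₀⟩ := h.exists_max x T₀
  have hex : ∃ n : ℕ, ∃ (c : ℝ) (hc : 0 ≤ c), cl F (h.ball x c hc) = ⊤ ∧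
      finrank k (h.ball x c hc) = n := by
    refine ⟨_, nrm x e₀, h.nonneg x e₀, ?_, rfl⟩
    rw [← top_le_iff, ← hT₀]
    exact cl_mono fun w hw => he₀ w hw
  obtain ⟨c₁, hc₁, hcl, hdim⟩ := Nat.find_spec hex
  have hmin : ∀ (c : ℝ) (hc : 0 ≤ c), cl F (h.ball x c hc) = ⊤ →
      finrank k (h.ball x c₁ hc₁) ≤ finrank k (h.ball x c hc) := by
    intro c hc h1
    by_contra h2
    rw [not_le, hdim] at h2
    exact Nat.find_min hex h2 ⟨c, hc, h1, rfl⟩
  set X := h.ball x c₁ hc₁ with hXdef
  have hXfin : FiniteDimensional k X := h.finball x c₁ hc₁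
  obtain ⟨e, heX, hemax⟩ := h.exists_max x X
  set c := nrm x e with hcdef
  have hcpos : 0 < c := by
    by_contra h1
    obtain ⟨w, hw⟩ := hV
    have h2 : X = ⊥ := by
      rw [Submodule.eq_bot_iff]
      intro y hy
      by_contra hy0
      have h3 := h.pos x y hy0
      have h4 := hemax y hy
      linarith
    have h3 : cl F X = ⊥ := by
      rw [eq_bot_iff, h2]
      refine cl_le le_rfl ?_
      intro y hy
      rw [(Submodule.mem_bot k).1 hy, map_zero]
      exact zero_mem _
    rw [h3] at hcl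
    exact hw ((Submodule.mem_bot k).1 (by rw [hcl]; exact trivial))
  have hXc : ∀ w : V, nrm x w ≤ c → w ∈ X := by
    intro w hw
    change nrm x w ≤ c₁
    exact hw.trans heX
  -- the open ball does not generate
  have hY : cl F (h.oball x c hcpos) ≠ ⊤ := by
    intro h1
    have hYX : h.oball x c hcpos ≤ X := fun w hw => hXc w (le_of_lt hw)
    have hYfin : FiniteDimensional k (h.oball x c hcpos) := Submodule.finiteDimensional_of_le hYX
    obtain ⟨e', he', hmax'⟩ := h.exists_max x (h.oball x c hcpos)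
    have he'c : nrm x e' < c := he'
    have h2 : h.oball x c hcpos ≤ h.ball x (nrm x e') (h.nonneg x e') := fun w hw => hmax' w hw
    have h3 : h.ball x (nrm x e') (h.nonneg x e') ≤ h.oball x c hcpos := fun w hw =>
      lt_of_le_of_lt hw he'c
    have h4 : h.ball x (nrm x e') (h.nonneg x e') = h.oball x c hcpos := le_antisymm h3 h2
    have h5 := hmin (nrm x e') (h.nonneg x e') (by rw [h4, h1])
    rw [h4] at h5
    have h6 : h.oball x c hcpos < X := by
      refine lt_of_le_of_ne hYX fun h7 => ?_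
      have h8 : e ∈ h.oball x c hcpos := by rw [h7]; exact heX
      exact lt_irrefl c h8
    exact absurd (Submodule.finrank_lt_finrank_of_lt h6) (not_lt.2 h5)
  -- the chain
  set Sg : ℕ → Submodule k V := fun a => cl F (h.oball (x₀ + a * A) c hcpos) with hSg
  have hSgmono : Monotone Sg := by
    intro a a' haa
    refine cl_mono fun w hw => lt_of_le_of_lt (h.anti _ _ w ?_) hw
    have := Nat.mul_le_mul_right A haa
    omega
  have hSgle : ∀ a ≤ b, Sg a ≤ cl F (h.oball x c hcpos) := fun a ha =>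
    cl_mono fun w hw => lt_of_le_of_lt (h.anti _ _ w (hx₀3 a ha)) hw
  obtain ⟨a, hab, haeq⟩ := chain hF hT₀ (b := b) hb.ge Sg hSgmono (fun _ => stab_cl)
    (fun a _ => h.sat hF _ hcpos) fun a ha h1 => hY (top_le_iff.1 (by rw [← h1]; exact hSgle a ha))
  set S₀ := Sg a with hS₀
  have hS₀st : Stab F S₀ := stab_cl
  have hS₀sat : Sat F S₀ := h.sat hF _ hcpos
  have hS₀D : ∀ δ ∈ D, ∀ w ∈ S₀, δ w ∈ S₀ := by
    have h1 : S₀ ≤
        { carrier := {w | ∀ δ ∈ D, δ w ∈ S₀}
          add_mem' := fun ha hb δ hδ => by rw [map_add]; exact add_mem (ha δ hδ) (hb δ hδ)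
          zero_mem' := fun δ _ => by rw [map_zero]; exact zero_mem _
          smul_mem' := fun t w hw δ hδ => by
            rw [map_smul]
            exact Submodule.smul_mem _ _ (hw δ hδ) } := by
      refine cl_le (fun w hw δ hδ => ?_) ?_
      · rw [haeq]
        refine le_cl ?_
        change nrm (x₀ + (a + 1) * A) (δ w) < c
        have h2 := hD δ hδ (x₀ + a * A) w (by omega)
        have h3 : x₀ + (a + 1) * A = x₀ + a * A + A := by ring
        rw [h3]
        exact lt_of_le_of_lt h2 hw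
      · intro w hw δ hδ
        obtain ⟨δ', hδ', h2⟩ := hDF δ hδ w
        rw [h2]
        exact hS₀st _ (hw δ' hδ')
    exact fun δ hδ w hw => h1 hw δ hδ
  -- (1)
  have hx0a : x₀ ≤ x₀ + a * A := Nat.le_add_right _ _
  have h1 : ∀ u : V, nrm (x + A) u ≤ c → ∃ e ∈ X, ∃ y ∈ S₀, u = e + F y := by
    intro u hu
    have hu' : u ∈ cl F X := by rw [hcl]; exact trivial
    obtain ⟨e, he, y, -, rfl⟩ := (mem_cl_iff hF).1 hu'
    refine ⟨e, he, y, ?_, rfl⟩
    have h2 : nrm (x + A) (F y) ≤ c := by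
      have h3 := h.sub (x + A) (e + F y) e
      rw [add_sub_cancel_left] at h3
      refine h3.trans (max_le hu ?_)
      exact (h.anti _ _ e (Nat.le_add_right x A)).trans (hemax e he)
    rw [h.frob] at h2
    refine le_cl ?_
    change nrm (x₀ + a * A) y < c
    have h3 : nrm (x₀ + a * A) y ≤ nrm x₀ y := h.anti _ _ y hx0a
    have h4 : (p : ℝ) * nrm x₀ y ≤ c := h2
    have h5 := h.nonneg x₀ y
    nlinarith
  -- (2)
  have h2 : ∀ e ∈ X, ∀ w : V, ∀ s ∈ S₀, e = F w + s → e ∈ S₀ := by
    intro e he w s hs heq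
    obtain ⟨s₀, hs₀, y, hy, rfl⟩ := (mem_cl_iff hF).1 hs
    have h3 : e - s₀ = F (w + y) := by
      rw [heq, map_add]
      abel
    have h4 : nrm x (e - s₀) ≤ c := by
      refine (h.sub x e s₀).trans (max_le (hemax e he) ?_)
      exact (h.anti _ _ s₀ (hx₀3 a hab.le)).trans (le_of_lt hs₀)
    rw [h3, h.frob] at h4
    have h5 : w + y ∈ S₀ := by
      refine le_cl ?_
      change nrm (x₀ + a * A) (w + y) < c
      have h6 : nrm (x₀ + a * A) (w + y) ≤ nrm (cdv p x) (w + y) :=
        h.anti _ _ _ ((SzN.cdv_mono (Nat.le_add_right x A)).trans hx0a)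
      have h7 := h.nonneg (cdv p x) (w + y)
      nlinarith
    have h6 : w ∈ S₀ := by
      have := sub_mem h5 hy
      rwa [add_sub_cancel_right] at this
    rw [heq]
    exact add_mem (hS₀st w h6) hs
  -- the subspace
  set W := X ⊔ S₀ with hW
  have hWD : ∀ δ ∈ D, ∀ w ∈ W, δ w ∈ W := by
    intro δ hδ w hw
    obtain ⟨e, he, s, hs, rfl⟩ := Submodule.mem_sup.1 hw
    rw [map_add]
    refine add_mem ?_ ((le_sup_right : S₀ ≤ W) (hS₀D δ hδ s hs))
    obtain ⟨e', he', y, hy, h3⟩ := h1 (δ e) ((hD δ hδ x e hxn).trans (hemax e he))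
    rw [h3]
    exact add_mem ((le_sup_left : X ≤ W) he') ((le_sup_right : S₀ ≤ W) (hS₀st y hy))
  set H := S₀ ⊔ opS D W with hH
  have hHW : H ≤ W := by
    refine sup_le le_sup_right ?_
    rw [opS, Submodule.span_le]
    rintro _ ⟨δ, hδ, w, hw, rfl⟩
    exact hWD δ hδ w hw
  have hS₀top : S₀ ≠ ⊤ := fun h3 => hY (top_le_iff.1 (by rw [← h3]; exact hSgle a hab.le))
  have hWS : ¬ W ≤ S₀ := by
    intro h3
    have h4 : X ≤ S₀ := le_sup_left.trans h3
    refine hS₀top (top_le_iff.1 ?_)
    rw [← hcl]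
    exact cl_le h4 hS₀st
  have hHne : ¬ W ≤ H := fun h3 => hWS (huni S₀ W le_sup_right hS₀D hWD h3)
  have hXH : ¬ X ≤ H := fun h3 => hHne (sup_le h3 le_sup_left)
  -- (3)
  have h3 : ∀ e ∈ X, ∀ z : V, e + F z ∈ cl F H → e ∈ H ∧ z ∈ cl F H := by
    intro e he z hz
    obtain ⟨g, hg, s', hs', heq⟩ := (mem_cl_iff hF).1 hz
    have h4 : e - g ∈ W := sub_mem ((le_sup_left : X ≤ W) he) (hHW hg)
    obtain ⟨x', hx', σ, hσ, h5⟩ := Submodule.mem_sup.1 h4
    have h6 : e - g = F (s' - z) := by
      rw [map_sub]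
      have e1 : e = g + F s' - F z := by rw [← heq]; abel
      rw [e1]
      abel
    have h7 : x' ∈ S₀ := by
      refine h2 x' hx' (s' - z) (-σ) (neg_mem hσ) ?_
      rw [← h6, ← h5]
      abel
    have h8 : e - g ∈ S₀ := by
      rw [← h5]
      exact add_mem h7 hσ
    constructor
    · have h9 := add_mem ((le_sup_left : S₀ ≤ H) h8) hg
      rwa [sub_add_cancel] at h9
    · rw [h6] at h8
      have h9 : s' - z ∈ S₀ := hS₀sat 0 _ (by rwa [zero_smul, sub_zero])
      have h10 := sub_mem hs' (le_cl ((le_sup_left : S₀ ≤ H) h9))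
      rwa [sub_sub_cancel] at h10
  refine ⟨cl F H, stab_cl, ?_, ?_, ?_⟩
  · -- saturated
    have key : ∀ (n : ℕ) (t : k) (w : V), w ∈ lev hF X n → F w - t • w ∈ cl F H →
        w ∈ cl F H := by
      intro n
      induction n with
      | zero =>
        intro t w hw hw2
        obtain ⟨τ, hτ⟩ : ∃ τ : k, τ = t := ⟨t, rfl⟩
        have e1 : F w - t • w = -(t • w) + F w := by abel
        rw [e1] at hw2
        exact (h3 _ (neg_mem (Submodule.smul_mem _ _ hw)) w hw2).2
      | succ n ih =>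
        intro t w hw hw2
        obtain ⟨e', he', y, hy, rfl⟩ := mem_lev_succ.1 hw
        obtain ⟨τ, rfl⟩ := IsAlgClosed.exists_pow_nat_eq t hp.out.pos
        have e1 : F (e' + F y) - τ ^ p • (e' + F y) =
            -(τ ^ p • e') + F (e' + F y - τ • y) := by
          rw [map_sub, hF.smul, smul_add]
          abel
        rw [e1] at hw2
        obtain ⟨h5, h6⟩ := h3 _ (neg_mem (Submodule.smul_mem _ _ he')) _ hw2
        by_cases hτ : τ = 0
        · rw [hτ, zero_smul, sub_zero] at h6
          exact h6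
        · have h7 : e' ∈ H := by
            have h8 := Submodule.smul_mem H (τ ^ p)⁻¹ (neg_mem h5)
            rwa [neg_neg, smul_smul, inv_mul_cancel₀ (pow_ne_zero p hτ), one_smul] at h8
          have h8 : F y - τ • y ∈ cl F H := by
            have h9 := sub_mem h6 (le_cl h7)
            have e2 : e' + F y - τ • y - e' = F y - τ • y := by abel
            rwa [e2] at h9
          exact add_mem (le_cl h7) (stab_cl _ (ih τ y hy h8))
    intro t w hw
    obtain ⟨n, hn⟩ := exists_lev hF (X := X) (w := w) (by rw [hcl]; exact trivial)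
    exact key n t w hn hw
  · -- proper
    intro h4
    refine hXH fun e' he' => ?_
    exact (h3 e' he' 0 (by rw [h4]; exact trivial)).1
  · -- the operators
    have h4 : (⊤ : Submodule k V) ≤
        { carrier := {w | ∀ δ ∈ D, δ w ∈ cl F H}
          add_mem' := fun ha hb δ hδ => by rw [map_add]; exact add_mem (ha δ hδ) (hb δ hδ)
          zero_mem' := fun δ _ => by rw [map_zero]; exact zero_mem _
          smul_mem' := fun t w hw δ hδ => by
            rw [map_smul]
            exact Submodule.smul_mem _ _ (hw δ hδ) } := by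
      rw [← hcl]
      refine cl_le (fun w hw δ hδ => ?_) ?_
      · exact le_cl ((le_sup_right : opS D W ≤ H)
          (Submodule.subset_span ⟨δ, hδ, w, (le_sup_left : X ≤ W) hw, rfl⟩))
      · intro w hw δ hδ
        obtain ⟨δ', hδ', h5⟩ := hDF δ hδ w
        rw [h5]
        exact stab_cl _ (hw δ' hδ')
    exact fun δ hδ w => h4 trivial δ hδ

end Pool.Agent.TWK
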