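import Mathlib

/-!
# Modules with a Frobenius map

`k` algebraically closed of characteristic `p`, `V` a vector space with a `p`-semilinear map `F`.
* `Stab F S`: `S` is stable under `F`; `cl F S`: the smallest stable subspace which contains `S`;
* `Sat F S`: `F w - a w ∈ S` implies `w ∈ S`;
* `Sat.indep`: then the `F ^ i w`, `w ∉ S`, are linearly independent modulo `S`;
* `chain`: nested stable saturated proper subspaces `S 0 ≤ .. ≤ S b`, `V` generated by `b` elements:
  two consecutive ones are equal.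
-/

set_option autoImplicit false

open Module

namespace Pool.Agent.TWK

universe u

variable {k V : Type u} [Field k] [AddCommGroup V] [Module k V]

/-! ### Fixed vectors -/

section Poly

open Polynomial

variable {p : ℕ} [hp : Fact p.Prime]

/-- The polynomials `b_0 = r_0 X ^ p`, `b_(i + 1) = b_i ^ p + r_(i + 1) X ^ p`. -/
noncomputable def bpol (p : ℕ) (r : ℕ → k) : ℕ → Polynomial k
  | 0 => C (r 0) * X ^ p
  | i + 1 => bpol p r i ^ p + C (r (i + 1)) * X ^ p

theorem dvd_bpol (r : ℕ → k) (i : ℕ) : (X : Polynomial k) ^ p ∣ bpol p r i := by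
  induction i with
  | zero => exact Dvd.intro_left _ rfl
  | succ i ih =>
    refine dvd_add (ih.trans (dvd_pow_self _ hp.out.ne_zero)) (Dvd.intro_left _ rfl)

theorem bpol_eq_zero (r : ℕ → k) (i : ℕ) (h : bpol p r i = 0) : ∀ j ≤ i, r j = 0 := by
  induction i with
  | zero =>
    intro j hj
    obtain rfl : j = 0 := Nat.le_zero.1 hj
    have h1 : (C (r 0) * X ^ p : Polynomial k) = 0 := h
    have h2 := congrArg (fun q : Polynomial k => q.coeff p) h1
    simpa using h2
  | succ i ih =>
    have h0 : bpol p r i ^ p + C (r (i + 1)) * X ^ p = 0 := h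
    have h1 : r (i + 1) = 0 := by
      have h2 := congrArg (fun q : Polynomial k => q.coeff p) h0
      obtain ⟨G, hG⟩ := dvd_bpol (p := p) r i
      have h3 : (bpol p r i ^ p).coeff p = 0 := by
        have h4 : p < p * p := by
          have := hp.out.one_lt
          nlinarith
        rw [hG, mul_pow, ← pow_mul, coeff_X_pow_mul', if_neg (not_le.2 h4)]
      simpa [h3] using h2
    rw [h1, C_0, zero_mul, add_zero] at h0
    have h2 := eq_zero_of_pow_eq_zero h0
    intro j hj
    rcases Nat.lt_or_ge i j with h3 | h3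
    · obtain rfl : j = i + 1 := by omega
      exact h1
    · exact ih h2 j h3

/-- A nonzero solution of `b_i(t) = t`. -/
theorem exists_fix [IsAlgClosed k] (r : ℕ → k) (i : ℕ) (h : bpol p r i ≠ 0) :
    ∃ t : k, t ≠ 0 ∧ (bpol p r i).eval t = t := by
  obtain ⟨G, hG⟩ := dvd_bpol (p := p) r i
  have hG0 : G ≠ 0 := by
    rintro rfl
    rw [mul_zero] at hG
    exact h hG
  have hp1 : 1 ≤ p - 1 := by
    have := hp.out.two_le
    omega
  set Q : Polynomial k := X ^ (p - 1) * G - 1 with hQ
  have hdeg : Q.degree ≠ 0 := by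
    have h1 : (X ^ (p - 1) * G : Polynomial k).degree = ((p - 1 + G.natDegree : ℕ) : WithBot ℕ) := by
      rw [degree_mul, degree_X_pow, degree_eq_natDegree hG0]
      norm_cast
    have h2 : (1 : Polynomial k).degree < (X ^ (p - 1) * G : Polynomial k).degree := by
      rw [h1, degree_one]
      norm_cast
      omega
    rw [hQ, degree_sub_eq_left_of_degree_lt h2, h1]
    intro h3
    have h4 : p - 1 + G.natDegree = 0 := by exact_mod_cast h3
    omega
  obtain ⟨t, ht⟩ := IsAlgClosed.exists_root Q hdeg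
  rw [IsRoot.def, hQ, eval_sub, eval_mul, eval_pow, eval_X, eval_one, sub_eq_zero] at ht
  refine ⟨t, ?_, ?_⟩
  · rintro rfl
    rw [zero_pow (by omega), zero_mul] at ht
    exact zero_ne_one ht
  · rw [hG, eval_mul, eval_pow, eval_X]
    have h1 : t ^ p = t * t ^ (p - 1) := by
      rw [← pow_succ', Nat.sub_add_cancel (by omega)]
    rw [h1, mul_assoc, ht, mul_one]

end Poly

/-- A `p`-semilinear map. -/
structure Semi (p : ℕ) (k : Type u) {V : Type u} [Field k] [AddCommGroup V] [Module k V]
    (F : V →+ V) : Prop where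
  smul : ∀ (c : k) (w : V), F (c • w) = c ^ p • F w
  inj : Function.Injective F

/-- `S` is stable. -/
def Stab (F : V →+ V) (S : Submodule k V) : Prop := ∀ w ∈ S, F w ∈ S

/-- `S` is saturated. -/
def Sat (F : V →+ V) (S : Submodule k V) : Prop := ∀ (a : k) (w : V), F w - a • w ∈ S → w ∈ S

/-- The stable subspace generated by `S`. -/
def cl (F : V →+ V) (S : Submodule k V) : Submodule k V := sInf {T | S ≤ T ∧ Stab F T}

variable {p : ℕ} {F : V →+ V} {S T X : Submodule k V}

theorem le_cl : S ≤ cl F S := le_sInf fun _ hT => hT.1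

theorem cl_le (h : S ≤ T) (hT : Stab F T) : cl F S ≤ T := sInf_le ⟨h, hT⟩

theorem stab_cl : Stab F (cl F S) := by
  intro w hw
  rw [cl, Submodule.mem_sInf] at hw ⊢
  exact fun T hT => hT.2 _ (hw T hT)

theorem cl_mono (h : S ≤ T) : cl F S ≤ cl F T := cl_le (h.trans le_cl) stab_cl

/-- The image of a subspace under a semilinear map. -/
def img [hp : Fact p.Prime] [IsAlgClosed k] (hF : Semi p k F) (S : Submodule k V) :
    Submodule k V where
  carrier := {w | ∃ y ∈ S, F y = w}
  add_mem' := by
    rintro _ _ ⟨y, hy, rfl⟩ ⟨z, hz, rfl⟩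
    exact ⟨y + z, add_mem hy hz, map_add F y z⟩
  zero_mem' := ⟨0, zero_mem _, map_zero F⟩
  smul_mem' := by
    rintro c _ ⟨y, hy, rfl⟩
    obtain ⟨d, rfl⟩ := IsAlgClosed.exists_pow_nat_eq c hp.out.pos
    exact ⟨d • y, Submodule.smul_mem _ _ hy, hF.smul d y⟩

section Alg

variable [hp : Fact p.Prime] [IsAlgClosed k]

theorem mem_img {hF : Semi p k F} {w : V} : w ∈ img hF S ↔ ∃ y ∈ S, F y = w := Iff.rfl

/-- The elements of `cl F S`. -/
theorem cl_eq (hF : Semi p k F) : cl F S = S ⊔ img hF (cl F S) := by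
  refine le_antisymm (cl_le le_sup_left ?_) (sup_le le_cl ?_)
  · intro w hw
    refine (le_sup_right : _ ≤ S ⊔ img hF (cl F S)) ⟨w, ?_, rfl⟩
    refine (sup_le le_cl ?_ : S ⊔ img hF (cl F S) ≤ cl F S) hw
    rintro _ ⟨y, hy, rfl⟩
    exact stab_cl _ hy
  · rintro _ ⟨y, hy, rfl⟩
    exact stab_cl _ hy

theorem mem_cl_iff (hF : Semi p k F) {w : V} :
    w ∈ cl F S ↔ ∃ e ∈ S, ∃ y ∈ cl F S, w = e + F y := by
  conv_lhs => rw [cl_eq hF, Submodule.mem_sup]
  constructor
  · rintro ⟨e, he, _, ⟨y, hy, rfl⟩, rfl⟩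
    exact ⟨e, he, y, hy, rfl⟩
  · rintro ⟨e, he, y, hy, rfl⟩
    exact ⟨e, he, _, ⟨y, hy, rfl⟩, rfl⟩

/-- The elements of degree at most `n`. -/
noncomputable def lev (hF : Semi p k F) (X : Submodule k V) : ℕ → Submodule k V
  | 0 => X
  | n + 1 => X ⊔ img hF (lev hF X n)

theorem mem_lev_succ {hF : Semi p k F} {n : ℕ} {w : V} :
    w ∈ lev hF X (n + 1) ↔ ∃ e ∈ X, ∃ y ∈ lev hF X n, w = e + F y := by
  rw [lev, Submodule.mem_sup]
  constructor
  · rintro ⟨e, he, _, ⟨y, hy, rfl⟩, rfl⟩
    exact ⟨e, he, y, hy, rfl⟩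
  · rintro ⟨e, he, y, hy, rfl⟩
    exact ⟨e, he, _, ⟨y, hy, rfl⟩, rfl⟩

theorem lev_le_succ (hF : Semi p k F) (n : ℕ) : lev hF X n ≤ lev hF X (n + 1) := by
  induction n with
  | zero => exact le_sup_left
  | succ n ih =>
    intro w hw
    obtain ⟨e, he, y, hy, rfl⟩ := mem_lev_succ.1 hw
    exact mem_lev_succ.2 ⟨e, he, y, ih hy, rfl⟩

theorem lev_mono (hF : Semi p k F) : Monotone (lev hF X) := monotone_nat_of_le_succ (lev_le_succ hF)

theorem lev_F {hF : Semi p k F} {n : ℕ} {w : V} (hw : w ∈ lev hF X n) :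
    F w ∈ lev hF X (n + 1) := mem_lev_succ.2 ⟨0, zero_mem _, w, hw, by rw [zero_add]⟩

theorem lev_iter {hF : Semi p k F} {n : ℕ} {w : V} (hw : w ∈ lev hF X n) (i : ℕ) :
    F^[i] w ∈ lev hF X (n + i) := by
  induction i with
  | zero => exact hw
  | succ i ih =>
    rw [Function.iterate_succ_apply', ← add_assoc]
    exact lev_F ih

theorem lev_le_cl (hF : Semi p k F) (n : ℕ) : lev hF X n ≤ cl F X := by
  induction n with
  | zero => exact le_cl
  | succ n ih =>
    intro w hw
    obtain ⟨e, he, y, hy, rfl⟩ := mem_lev_succ.1 hw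
    exact add_mem (le_cl he) (stab_cl _ (ih hy))

theorem exists_lev (hF : Semi p k F) {w : V} (hw : w ∈ cl F X) : ∃ n, w ∈ lev hF X n := by
  have h1 : cl F X ≤
      { carrier := {w | ∃ n, w ∈ lev hF X n}
        add_mem' := by
          rintro a b ⟨n, hn⟩ ⟨m, hm⟩
          exact ⟨max n m, add_mem (lev_mono hF (le_max_left _ _) hn)
            (lev_mono hF (le_max_right _ _) hm)⟩
        zero_mem' := ⟨0, zero_mem _⟩
        smul_mem' := by
          rintro c a ⟨n, hn⟩
          exact ⟨n, Submodule.smul_mem _ _ hn⟩ } := by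
    refine cl_le (fun w hw => ⟨0, hw⟩) ?_
    rintro w ⟨n, hn⟩
    exact ⟨n + 1, lev_F hn⟩
  exact h1 hw

/-- The dimensions. -/
theorem finrank_img_le (hF : Semi p k F) (S : Submodule k V) [FiniteDimensional k S] :
    FiniteDimensional k (img hF S) ∧ finrank k (img hF S) ≤ finrank k S := by
  classical
  set b := Module.finBasis k S with hb
  have h1 : img hF S = Submodule.span k (Set.range fun i => F (b i : V)) := by
    refine le_antisymm ?_ ?_
    · rintro _ ⟨y, hy, rfl⟩
      have h2 : y = ∑ i, b.repr ⟨y, hy⟩ i • (b i : V) := by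
        have h3 := b.sum_repr ⟨y, hy⟩
        have h4 := congrArg (Subtype.val) h3
        rw [AddSubmonoidClass.coe_finsetSum] at h4
        simpa using h4.symm
      rw [h2, map_sum]
      refine sum_mem fun i _ => ?_
      rw [hF.smul]
      exact Submodule.smul_mem _ _ (Submodule.subset_span ⟨i, rfl⟩)
    · rw [Submodule.span_le]
      rintro _ ⟨i, rfl⟩
      exact ⟨b i, (b i).2, rfl⟩
  constructor
  · rw [h1]
    exact FiniteDimensional.span_of_finite k (Set.finite_range _)
  · rw [h1]
    refine (finrank_range_le_card _).trans ?_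
    rw [Fintype.card_fin]

theorem finrank_lev_le (hF : Semi p k F) (X : Submodule k V) [hX : FiniteDimensional k X] (n : ℕ) :
    FiniteDimensional k (lev hF X n) ∧ finrank k (lev hF X n) ≤ finrank k X * (n + 1) := by
  induction n with
  | zero => exact ⟨hX, by rw [zero_add, mul_one]; exact le_rfl⟩
  | succ n ih =>
    obtain ⟨h1, h2⟩ := ih
    obtain ⟨h3, h4⟩ := finrank_img_le hF (lev hF X n)
    have h5 := Submodule.finrank_add_le_finrank_add_finrank X (img hF (lev hF X n))
    refine ⟨?_, ?_⟩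
    · change FiniteDimensional k (X ⊔ img hF (lev hF X n) : Submodule k V)
      infer_instance
    · change finrank k (X ⊔ img hF (lev hF X n) : Submodule k V) ≤ _
      refine h5.trans ?_
      rw [mul_add _ (n + 1) 1, mul_one]
      omega

/-- **Independence modulo a saturated subspace.** -/
theorem Sat.indep (hF : Semi p k F) (hS : Stab F S) (hsat : Sat F S) {w : V} (hw : w ∉ S) :
    ∀ (m : ℕ) (c : ℕ → k), ∑ i ∈ Finset.range m, c i • F^[i] w ∈ S → ∀ i < m, c i = 0 := by
  classical
  by_contra hno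
  push Not at hno
  obtain ⟨m₀, c₀, h1, j₀, hj₀, hc₀⟩ := hno
  -- the first dependent power
  have hex : ∃ m, ∃ r : ℕ → k, F^[m] w - ∑ i ∈ Finset.range m, r i • F^[i] w ∈ S := by
    induction m₀ with
    | zero => exact absurd hj₀ (Nat.not_lt_zero _)
    | succ m ih =>
      rw [Finset.sum_range_succ] at h1
      by_cases hm : c₀ m = 0
      · rw [hm, zero_smul, add_zero] at h1
        refine ih h1 ?_
        rcases Nat.lt_succ_iff_lt_or_eq.1 hj₀ with h2 | h2
        · exact h2
        · exact absurd (h2 ▸ hm) hc₀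
      · refine ⟨m, fun i => -((c₀ m)⁻¹ * c₀ i), ?_⟩
        have h2 := Submodule.smul_mem S (c₀ m)⁻¹ h1
        rw [smul_add, smul_smul, inv_mul_cancel₀ hm, one_smul, Finset.smul_sum] at h2
        have e : F^[m] w - ∑ i ∈ Finset.range m, (-((c₀ m)⁻¹ * c₀ i)) • F^[i] w =
            ∑ i ∈ Finset.range m, (c₀ m)⁻¹ • c₀ i • F^[i] w + F^[m] w := by
          rw [add_comm, sub_eq_add_neg, ← Finset.sum_neg_distrib]
          congr 1
          refine Finset.sum_congr rfl fun i _ => ?_
          rw [neg_smul, neg_neg, smul_smul]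
        rw [e]
        exact h2
  obtain ⟨r, hr⟩ := Nat.find_spec hex
  set m := Nat.find hex with hm
  have hmin : ∀ m' < m, ∀ r : ℕ → k,
      F^[m'] w - ∑ i ∈ Finset.range m', r i • F^[i] w ∉ S := by
    intro m' hm' r' h2
    exact Nat.find_min hex hm' ⟨r', h2⟩
  -- independence below `m`
  have hind : ∀ m' ≤ m, ∀ b : ℕ → k, ∑ i ∈ Finset.range m', b i • F^[i] w ∈ S →
      ∀ i < m', b i = 0 := by
    intro m'
    induction m' with
    | zero => intro _ b _ i hi; exact absurd hi (Nat.not_lt_zero _)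
    | succ m' ih =>
      intro hm' b hb
      rw [Finset.sum_range_succ] at hb
      have h3 : b m' = 0 := by
        by_contra h4
        refine hmin m' hm' (fun i => -((b m')⁻¹ * b i)) ?_
        have h5 := Submodule.smul_mem S (b m')⁻¹ hb
        rw [smul_add, smul_smul, inv_mul_cancel₀ h4, one_smul, Finset.smul_sum] at h5
        have e : F^[m'] w - ∑ i ∈ Finset.range m', (-((b m')⁻¹ * b i)) • F^[i] w =
            ∑ i ∈ Finset.range m', (b m')⁻¹ • b i • F^[i] w + F^[m'] w := by
          rw [add_comm, sub_eq_add_neg, ← Finset.sum_neg_distrib]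
          congr 1
          refine Finset.sum_congr rfl fun i _ => ?_
          rw [neg_smul, neg_neg, smul_smul]
        rw [e]
        exact h5
      rw [h3, zero_smul, add_zero] at hb
      intro i hi
      rcases Nat.lt_succ_iff_lt_or_eq.1 hi with h4 | h4
      · exact ih (by omega) b hb i h4
      · rw [h4]
        exact h3
  have hm0 : m ≠ 0 := by
    intro h2
    rw [h2] at hr
    simp only [Function.iterate_zero, id_eq, Finset.range_zero, Finset.sum_empty, sub_zero] at hr
    exact hw hr
  obtain ⟨n, hn⟩ := Nat.exists_eq_succ_of_ne_zero hm0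
  rw [Nat.succ_eq_add_one] at hn
  by_cases hb : bpol p r n = 0
  · -- all the coefficients are `0`
    have h2 := bpol_eq_zero r n hb
    have h3 : ∑ i ∈ Finset.range m, r i • F^[i] w = 0 := by
      refine Finset.sum_eq_zero fun i hi => ?_
      rw [h2 i (by
        have := Finset.mem_range.1 hi
        omega), zero_smul]
    rw [h3, sub_zero, hn, Function.iterate_succ_apply'] at hr
    have h4 : F^[n] w ∈ S := hsat 0 _ (by rwa [zero_smul, sub_zero])
    have h5 := hind (n + 1) hn.ge (fun i => if i = n then 1 else 0) (by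
      rw [Finset.sum_range_succ, Finset.sum_eq_zero, if_pos rfl, one_smul, zero_add]
      · exact h4
      · intro i hi
        rw [if_neg (Finset.mem_range.1 hi).ne, zero_smul]) n (Nat.lt_succ_self n)
    simp at h5
  · -- a fixed vector
    obtain ⟨t, ht0, ht⟩ := exists_fix r n hb
    set b : ℕ → k := fun i => (bpol p r i).eval t with hbdef
    have hb0 : b 0 = t ^ p * r 0 := by
      rw [hbdef]
      change (Polynomial.C (r 0) * Polynomial.X ^ p).eval t = _
      rw [Polynomial.eval_mul, Polynomial.eval_C, Polynomial.eval_pow, Polynomial.eval_X, mul_comm]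
    have hbs : ∀ i, b (i + 1) = b i ^ p + t ^ p * r (i + 1) := by
      intro i
      rw [hbdef]
      change (bpol p r i ^ p + Polynomial.C (r (i + 1)) * Polynomial.X ^ p).eval t = _
      rw [Polynomial.eval_add, Polynomial.eval_mul, Polynomial.eval_C, Polynomial.eval_pow,
        Polynomial.eval_pow, Polynomial.eval_X, mul_comm (r (i + 1))]
    set y : V := ∑ i ∈ Finset.range (n + 1), b i • F^[i] w with hy
    have hFy : F y = ∑ i ∈ Finset.range (n + 1), b i ^ p • F^[i + 1] w := by
      rw [hy, map_sum]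
      refine Finset.sum_congr rfl fun i _ => ?_
      rw [hF.smul, Function.iterate_succ_apply']
    have hkey : F y - (1 : k) • y =
        t ^ p • (F^[n + 1] w - ∑ i ∈ Finset.range (n + 1), r i • F^[i] w) := by
      have h2 : ∑ i ∈ Finset.range (n + 1), b i ^ p • F^[i + 1] w =
          ∑ i ∈ Finset.range n, b i ^ p • F^[i + 1] w + t ^ p • F^[n + 1] w := by
        rw [Finset.sum_range_succ]
        congr 2
        rw [show b n = t from ht]
      have h3 : y = ∑ i ∈ Finset.range n, b i ^ p • F^[i + 1] w +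
          t ^ p • ∑ i ∈ Finset.range (n + 1), r i • F^[i] w := by
        rw [hy, Finset.sum_range_succ', hb0, Finset.sum_range_succ' (fun i => r i • F^[i] w),
          smul_add, smul_smul, Finset.smul_sum, ← add_assoc, ← Finset.sum_add_distrib]
        congr 1
        refine Finset.sum_congr rfl fun i _ => ?_
        rw [hbs, add_smul, smul_smul]
      rw [hFy, h2, one_smul, h3, smul_sub]
      abel
    have h2 : y ∈ S := by
      refine hsat 1 y ?_
      rw [hkey, ← hn]
      exact Submodule.smul_mem _ _ hr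
    have h3 := hind (n + 1) hn.ge b h2 n (Nat.lt_succ_self n)
    exact ht0 (by rw [← ht]; exact h3)

/-! ### Growth -/

/-- The growth of nested saturated subspaces. -/
theorem Sat.grow (hF : Semi p k F) (hS : Stab F S) (hsat : Sat F S) (hST : S ≤ T)
    (hT : Stab F T) [FiniteDimensional k X] {w : V} (hwT : w ∈ T) (hwS : w ∉ S) {n₀ : ℕ}
    (hw : w ∈ lev hF X n₀) (n : ℕ) :
    finrank k (S ⊓ lev hF X (n₀ + n) : Submodule k V) + (n + 1) ≤
      finrank k (T ⊓ lev hF X (n₀ + n) : Submodule k V) := by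
  classical
  have hfin : FiniteDimensional k (lev hF X (n₀ + n)) := (finrank_lev_le hF X (n₀ + n)).1
  set W : Submodule k V := Submodule.span k (Set.range fun i : Fin (n + 1) => F^[(i : ℕ)] w)
    with hW
  have hind := hsat.indep hF hS hwS
  have hli : LinearIndependent k fun i : Fin (n + 1) => F^[(i : ℕ)] w := by
    rw [Fintype.linearIndependent_iff]
    intro g hg i
    have h1 := hind (n + 1) (fun j => if h : j < n + 1 then g ⟨j, h⟩ else 0) (by
      rw [Finset.sum_range]
      simp only [Fin.is_lt, dif_pos, Fin.eta]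
      rw [hg]
      exact zero_mem _) i i.2
    rw [dif_pos i.2] at h1
    exact h1
  have hWd : finrank k W = n + 1 := by
    rw [hW, finrank_span_eq_card hli, Fintype.card_fin]
  have hWfin : FiniteDimensional k W := FiniteDimensional.span_of_finite k (Set.finite_range _)
  have hWT : W ≤ T ⊓ lev hF X (n₀ + n) := by
    rw [hW, Submodule.span_le]
    rintro _ ⟨i, rfl⟩
    refine ⟨?_, lev_mono hF (Nat.add_le_add_left (Nat.lt_succ_iff.1 i.2) n₀) (lev_iter hw i)⟩
    change F^[(i : ℕ)] w ∈ T
    induction (i : ℕ) with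
    | zero => exact hwT
    | succ j ih =>
      rw [Function.iterate_succ_apply']
      exact hT _ ih
  have hdis : Disjoint (S ⊓ lev hF X (n₀ + n)) W := by
    rw [Submodule.disjoint_def]
    intro y hyS hyW
    rw [hW, Submodule.mem_span_range_iff_exists_fun] at hyW
    obtain ⟨c, rfl⟩ := hyW
    have h1 := hind (n + 1) (fun j => if h : j < n + 1 then c ⟨j, h⟩ else 0) (by
      rw [Finset.sum_range]
      simp only [Fin.is_lt, dif_pos, Fin.eta]
      exact hyS.1)
    refine Finset.sum_eq_zero fun i _ => ?_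
    have h2 := h1 i i.2
    rw [dif_pos i.2] at h2
    change c i = 0 at h2
    rw [h2, zero_smul]
  have h1 := Submodule.finrank_sup_add_finrank_inf_eq (S ⊓ lev hF X (n₀ + n)) W
  rw [hdis.eq_bot, finrank_bot, add_zero, hWd] at h1
  rw [← h1]
  exact Submodule.finrank_mono (sup_le (inf_le_inf_right _ hST) hWT)

/-- **Chains of saturated subspaces.** -/
theorem chain (hF : Semi p k F) [FiniteDimensional k X] (hX : cl F X = ⊤) {b : ℕ}
    (hb : finrank k X ≤ b) (Sg : ℕ → Submodule k V) (hmono : Monotone Sg)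
    (hst : ∀ i, Stab F (Sg i)) (hsat : ∀ i ≤ b, Sat F (Sg i)) (htop : ∀ i ≤ b, Sg i ≠ ⊤) :
    ∃ i < b, Sg i = Sg (i + 1) := by
  classical
  by_contra hno
  push Not at hno
  -- the new elements
  have h1 : ∀ i : ℕ, ∃ w : V, (i < b → w ∈ Sg (i + 1) ∧ w ∉ Sg i) ∧ (i = b → w ∉ Sg i) := by
    intro i
    rcases lt_trichotomy i b with h | h | h
    · have h2 : Sg i < Sg (i + 1) := lt_of_le_of_ne (hmono (Nat.le_add_right i 1)) (hno i h)
      obtain ⟨w, hw, hw'⟩ := SetLike.exists_of_lt h2
      exact ⟨w, fun _ => ⟨hw, hw'⟩, fun h3 => absurd h3 h.ne⟩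
    · obtain ⟨w, -, hw⟩ := SetLike.exists_of_lt (lt_top_iff_ne_top.2 (htop i h.le))
      exact ⟨w, fun h3 => absurd h3 (by omega), fun _ => hw⟩
    · exact ⟨0, fun h3 => absurd h3 (by omega), fun h3 => absurd h3 (by omega)⟩
  choose w hw hwb using h1
  have h2 : ∀ i, ∃ n, w i ∈ lev hF X n := fun i => exists_lev hF (by rw [hX]; exact trivial)
  choose N hN using h2
  set n₀ := (Finset.range (b + 1)).sup N with hn₀
  have h3 : ∀ i ≤ b, w i ∈ lev hF X n₀ := fun i hi =>
    lev_mono hF (Finset.le_sup (f := N) (Finset.mem_range.2 (Nat.lt_succ_of_le hi))) (hN i)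
  have h4 : ∀ n, ∀ i ≤ b, i * (n + 1) ≤ finrank k (Sg i ⊓ lev hF X (n₀ + n) : Submodule k V) := by
    intro n i
    induction i with
    | zero => intro _; rw [zero_mul]; exact Nat.zero_le _
    | succ i ih =>
      intro hi
      have h5 := Sat.grow hF (hst i) (hsat i (by omega)) (hmono (Nat.le_add_right i 1)) (hst (i + 1))
        (hw i (by omega)).1 (hw i (by omega)).2 (h3 i (by omega)) n
      have h6 := ih (by omega)
      rw [add_mul, one_mul]
      omega
  have h5 := Sat.grow hF (hst b) (hsat b le_rfl) le_top (T := ⊤) (fun _ _ => trivial)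
    trivial (hwb b rfl) (h3 b le_rfl) (b * n₀)
  rw [top_inf_eq] at h5
  have h6 := h4 (b * n₀) b le_rfl
  have h7 := (finrank_lev_le hF X (n₀ + b * n₀)).2
  have h8 : finrank k X * (n₀ + b * n₀ + 1) ≤ b * (n₀ + b * n₀ + 1) :=
    Nat.mul_le_mul_right _ hb
  have h9 : b * (b * n₀ + 1) + (b * n₀ + 1) ≤ b * (n₀ + b * n₀ + 1) := by omega
  nlinarith

end Alg

end Pool.Agent.TWK
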